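import Pool.Agent.Q265.Fru.Suf

/-!
# MP_5df1f6_co: the missing numbers of frustrated triples for graphs with few edges

A graph on `n` vertices is given by its edge set `E`, a set of 2-element subsets of `Fin n`.
-/

set_option autoImplicit false
open Finset

namespace Pool.Agent.Results.MP_5df1f6_co.MissingCounts

/-- `E` is the edge set of a graph: every element is a set of two vertices. -/
def IsGraph {n : ℕ} (E : Finset (Finset (Fin n))) : Prop := ∀ e ∈ E, e.card = 2

/-- The number of edges inside the vertex set `T`. -/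
def edgesIn {n : ℕ} (E : Finset (Finset (Fin n))) (T : Finset (Fin n)) : ℕ :=
  (E.filter fun e => e ⊆ T).card

/-- The number `f(G)` of frustrated triples: three vertices with an odd number of edges. -/
def frustrated {n : ℕ} (E : Finset (Finset (Fin n))) : ℕ :=
  (((univ : Finset (Fin n)).powersetCard 3).filter fun T => Odd (edgesIn E T)).card

/-- The set `S_t` of the numbers of frustrated triples of the graphs with `n` vertices and `t`
edges. -/
def S (n t : ℕ) : Set ℕ :=
  {m | ∃ E : Finset (Finset (Fin n)), IsGraph E ∧ E.card = t ∧ frustrated E = m}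

/-- `a_t = t (n - t - 1)` -/
def a (n t : ℕ) : ℕ := t * (n - t - 1)

/-- `b_t = t (n - 2)` -/
def b (n t : ℕ) : ℕ := t * (n - 2)

/-- The missing numbers are those of the wrong parity and the numbers `a_t + 2 k`, where `k` lies
strictly between `(s - 1) (2 t - s) / 2` and `s (t - s - 1)` for some `s`, `1 ≤ s < t`. -/
theorem result : ∀ n t : ℕ, 3 ≤ n → t * (t + 1) < n - 2 →
    Set.Icc (a n t) (b n t) \ S n t =
      {m | m ∈ Set.Icc (a n t) (b n t) ∧ (m % 2 ≠ a n t % 2 ∨
        ∃ s k, 1 ≤ s ∧ s < t ∧ (s - 1) * (2 * t - s) < 2 * k ∧ k < s * (t - s - 1) ∧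
          m = a n t + 2 * k)} := by
  intro n t hn ht
  obtain ⟨u, rfl⟩ : ∃ u, n = t + 1 + u := ⟨n - (t + 1), by
    have : t ≤ t * (t + 1) := by nlinarith
    omega⟩
  have h2t : 2 * t ≤ t + 1 + u := by
    have : t * (t + 1) + 2 < t + 1 + u := by omega
    nlinarith
  have ea : a (t + 1 + u) t = t * u := by
    unfold a
    congr 1
    omega
  have hn2 : t + 1 + u - 2 + 1 = t + u := by omega
  set w := t + 1 + u - 2 with hw
  have eb : b (t + 1 + u) t = t * w := rfl
  have hct := Pool.Agent.Q265.Fru.ch t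
  have hwz : (w : ℤ) = t + u - 1 := by omega
  -- b = a + 2 C(t,2)
  have hba : t * w = t * u + 2 * t.choose 2 := by
    have : ((t * w : ℕ) : ℤ) = ((t * u + 2 * t.choose 2 : ℕ) : ℤ) := by
      push_cast
      rw [hct, hwz]
      ring
    exact_mod_cast this
  have hS : ∀ m, m ∈ S (t + 1 + u) t ↔
      ∃ L, L ≤ t.choose 2 ∧ ¬ Pool.Agent.Q265.Fru.Gap t L ∧ m + 2 * L = t * w := by
    intro m
    constructor
    · rintro ⟨E, hE, hc, rfl⟩
      have h1 := Pool.Agent.Q265.Fru.fr_add (E := E) hE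
      have h2 := Pool.Agent.Q265.Fru.not_gap (E := E) hE
      rw [hc] at h1 h2
      rw [Fintype.card_fin, ← hw] at h1
      refine ⟨_, ?_, h2, h1⟩
      by_contra hcon
      push Not at hcon
      have h3 : (Pool.Agent.Q265.Fru.LL E).card ≤ E.card.choose 2 := by
        rw [← card_powersetCard]
        have hsub : Pool.Agent.Q265.Fru.LL E ⊆ (E.powersetCard 2).image fun P => P.biUnion id := by
          intro T hT
          obtain ⟨e1, h1, e2, h2, hne, hu, -⟩ := Pool.Agent.Q265.Fru.exists_two hE hT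
          rw [mem_image]
          refine ⟨{e1, e2}, ?_, by rw [hu]; ext x; simp⟩
          rw [mem_powersetCard]
          refine ⟨?_, card_pair hne⟩
          intro e he
          rcases mem_insert.1 he with h | h
          · rw [h]; exact h1
          · rw [mem_singleton.1 h]; exact h2
        exact (card_le_card hsub).trans card_image_le
      rw [hc] at h3
      omega
    · rintro ⟨L, h1, h2, h3⟩
      obtain ⟨E, hE, hc, hL⟩ := Pool.Agent.Q265.Fru.suff (V := Fin (t + 1 + u)) (t := t) (L := L)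
        (by rw [Fintype.card_fin]; exact h2t) h1 h2
      refine ⟨E, hE, hc, ?_⟩
      have h4 := Pool.Agent.Q265.Fru.fr_add (E := E) hE
      rw [hc, Fintype.card_fin, hL, ← hw] at h4
      change Pool.Agent.Q265.Fru.fr E = m
      omega
  have key : ∀ L k, L + k = t.choose 2 → (Pool.Agent.Q265.Fru.Gap t L ↔
      ∃ s, 1 ≤ s ∧ s < t ∧ (s - 1) * (2 * t - s) < 2 * k ∧ k < s * (t - s - 1)) := by
    intro L k hLk
    unfold Pool.Agent.Q265.Fru.Gap
    constructor
    · rintro ⟨s, hst, h1, h2⟩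
      rcases Nat.eq_zero_or_pos s with rfl | hs
      · simp only [Nat.sub_zero] at h1
        omega
      refine ⟨s, hs, hst, ?_⟩
      obtain ⟨i, rfl⟩ : ∃ i, s = i + 1 := ⟨s - 1, by omega⟩
      obtain ⟨x, rfl⟩ : ∃ x, t = i + 1 + 1 + x := ⟨t - (i + 2), by omega⟩
      have e1 : i + 1 + 1 + x - (i + 1) = x + 1 := by omega
      have e2 : 2 * (i + 1 + 1 + x) - (i + 1) = i + 3 + 2 * x := by omega
      have e3 : x + 1 - 1 = x := by omega
      rw [e1] at h1 h2
      rw [e1, e2, e3, Nat.add_sub_cancel]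
      have c1 := Pool.Agent.Q265.Fru.ch (x + 1)
      have c2 := Pool.Agent.Q265.Fru.ch (i + 1 + 1)
      have c3 := Pool.Agent.Q265.Fru.ch (x + 1 + 1)
      push_cast at c1 c2 c3 hct
      have z1 : (((x + 1).choose 2 : ℤ)) + ((i + 1 + 1).choose 2 : ℤ) + 1 ≤ L := by exact_mod_cast h1
      have z2 : (L : ℤ) + 1 ≤ ((x + 1 + 1).choose 2 : ℤ) := by exact_mod_cast h2
      have z3 : (L : ℤ) + k = ((i + 1 + 1 + x).choose 2 : ℤ) := by exact_mod_cast hLk
      constructor
      · have : (i : ℤ) * (i + 3 + 2 * x) < 2 * k := by linarith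
        exact_mod_cast this
      · have : (k : ℤ) < (i + 1) * x := by linarith
        exact_mod_cast this
    · rintro ⟨s, hs, hst, h1, h2⟩
      refine ⟨s, hst, ?_⟩
      obtain ⟨i, rfl⟩ : ∃ i, s = i + 1 := ⟨s - 1, by omega⟩
      obtain ⟨x, rfl⟩ : ∃ x, t = i + 1 + 1 + x := ⟨t - (i + 2), by omega⟩
      have e1 : i + 1 + 1 + x - (i + 1) = x + 1 := by omega
      have e2 : 2 * (i + 1 + 1 + x) - (i + 1) = i + 3 + 2 * x := by omega
      have e3 : x + 1 - 1 = x := by omega
      rw [e2, Nat.add_sub_cancel] at h1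
      rw [e1, e3] at h2
      rw [e1]
      have c1 := Pool.Agent.Q265.Fru.ch (x + 1)
      have c2 := Pool.Agent.Q265.Fru.ch (i + 1 + 1)
      have c3 := Pool.Agent.Q265.Fru.ch (x + 1 + 1)
      push_cast at c1 c2 c3 hct
      have z1 : (i : ℤ) * (i + 3 + 2 * x) + 1 ≤ 2 * k := by exact_mod_cast h1
      have z2 : (k : ℤ) + 1 ≤ (i + 1) * x := by exact_mod_cast h2
      have z3 : (L : ℤ) + k = ((i + 1 + 1 + x).choose 2 : ℤ) := by exact_mod_cast hLk
      constructor
      · have : (((x + 1).choose 2 : ℤ)) + ((i + 1 + 1).choose 2 : ℤ) < L := by linarith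
        exact_mod_cast this
      · have : (L : ℤ) < ((x + 1 + 1).choose 2 : ℤ) := by linarith
        exact_mod_cast this
  ext m
  simp only [Set.mem_sdiff, Set.mem_setOf_eq]
  refine and_congr_right fun hm => ?_
  rw [ea, eb, Set.mem_Icc] at hm
  rw [hS, ea]
  constructor
  · intro h
    by_cases hpar : m % 2 = t * u % 2
    · right
      obtain ⟨k, hk⟩ : ∃ k, m = t * u + 2 * k := ⟨(m - t * u) / 2, by omega⟩
      have hkt : k ≤ t.choose 2 := by omega
      have hgap : Pool.Agent.Q265.Fru.Gap t (t.choose 2 - k) := by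
        by_contra hc
        exact h ⟨t.choose 2 - k, Nat.sub_le _ _, hc, by omega⟩
      obtain ⟨s, g1, g2, g3, g4⟩ := (key (t.choose 2 - k) k (by omega)).1 hgap
      exact ⟨s, k, g1, g2, g3, g4, hk⟩
    · exact Or.inl hpar
  · rintro (h | ⟨s, k, g1, g2, g3, g4, hk⟩)
    · rintro ⟨L, h1, h2, h3⟩
      omega
    · rintro ⟨L, h1, h2, h3⟩
      exact h2 ((key L k (by omega)).2 ⟨s, g1, g2, g3, g4⟩)

end Pool.Agent.Results.MP_5df1f6_co.MissingCounts
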